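import Pool.Agent.RGP.Defs

set_option autoImplicit false

/-!
# RGP: basic facts
-/

open scoped Classical

noncomputable section

namespace Pool.Agent.RGP

/-- Matchings indexed by an arbitrary finite type. -/
def PackT {V : Type} (m : V → V → ℕ) (ι : Type) [Fintype ι] : Prop :=
  ∃ s : ι → V → V, (∀ i v, s i v ≠ v ∧ s i (s i v) = v) ∧
    ∀ u v, (Finset.univ.filter fun i => s i u = v).card ≤ m u v

theorem PackT.toFin {V : Type} {m : V → V → ℕ} {ι : Type} [Fintype ι] (h : PackT m ι) {k : ℕ}
    (hk : k ≤ Fintype.card ι) : HasMatchings m k := by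
  obtain ⟨s, hs, hc⟩ := h
  have hk' : Fintype.card (Fin k) ≤ Fintype.card ι := by rw [Fintype.card_fin]; exact hk
  obtain ⟨f⟩ := Function.Embedding.nonempty_of_card_le hk'
  refine ⟨fun i => s (f i), fun i v => hs (f i) v, fun u v => ?_⟩
  refine le_trans ?_ (hc u v)
  refine Finset.card_le_card_of_injOn f ?_ (fun a _ b _ h => f.injective h)
  intro i hi
  simpa using hi

theorem HasMatchings.mono {V : Type} {m : V → V → ℕ} {j k : ℕ} (h : HasMatchings m k)
    (hjk : j ≤ k) : HasMatchings m j := by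
  have h' : PackT m (Fin k) := h
  exact h'.toFin (by rw [Fintype.card_fin]; exact hjk)

theorem hasMatchings_zero {V : Type} (m : V → V → ℕ) : HasMatchings m 0 :=
  ⟨fun i => i.elim0, fun i => i.elim0, fun u v => by simp⟩

/-- Removing one edge costs at most one matching. -/
theorem HasMatchings.remove {V : Type} {m m' : V → V → ℕ} (a b : V) {k : ℕ}
    (h : HasMatchings m (k + 1)) (hm : ∀ u v, m u v ≤ m' u v + ind a b u v) :
    HasMatchings m' k := by
  obtain ⟨s, hs, hc⟩ := h
  -- the index to remove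
  have key : ∃ i0 : Fin (k + 1), (∃ i, s i a = b) → s i0 a = b := by
    by_cases h1 : ∃ i, s i a = b
    · obtain ⟨i, hi⟩ := h1
      exact ⟨i, fun _ => hi⟩
    · exact ⟨0, fun h2 => absurd h2 h1⟩
  obtain ⟨i0, hi0⟩ := key
  have hP : PackT m' {i : Fin (k + 1) // i ≠ i0} := by
    refine ⟨fun i => s i.1, fun i v => hs i.1 v, fun u v => ?_⟩
    have h2 : (Finset.univ.filter fun i : {i : Fin (k + 1) // i ≠ i0} => s i.1 u = v).card
        = (((Finset.univ.filter fun i => s i u = v)).erase i0).card := by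
      refine Finset.card_bij (fun i _ => i.1) ?_ ?_ ?_
      · intro i hi
        rw [Finset.mem_filter] at hi
        rw [Finset.mem_erase, Finset.mem_filter]
        exact ⟨i.2, Finset.mem_univ _, hi.2⟩
      · intro i _ j _ hij
        exact Subtype.ext hij
      · intro i hi
        rw [Finset.mem_erase, Finset.mem_filter] at hi
        exact ⟨⟨i, hi.1⟩, by rw [Finset.mem_filter]; exact ⟨Finset.mem_univ _, hi.2.2⟩, rfl⟩
    rw [h2]
    by_cases huv : (u = a ∧ v = b) ∨ (u = b ∧ v = a)
    · by_cases hex : ∃ i, s i a = b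
      · have hi := hi0 hex
        have hmem : i0 ∈ (Finset.univ.filter fun i => s i u = v) := by
          rw [Finset.mem_filter]
          refine ⟨Finset.mem_univ _, ?_⟩
          rcases huv with ⟨h3, h4⟩ | ⟨h3, h4⟩
          · rw [h3, h4]; exact hi
          · rw [h3, h4, ← hi]; exact (hs i0 a).2
        rw [Finset.card_erase_of_mem hmem]
        have h5 := hc u v
        have h6 := hm u v
        unfold ind at h6
        rw [if_pos huv] at h6
        omega
      · have h7 : (Finset.univ.filter fun i => s i u = v) = ∅ := by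
          rw [Finset.filter_eq_empty_iff]
          intro i _ hi
          apply hex
          rcases huv with ⟨h3, h4⟩ | ⟨h3, h4⟩
          · exact ⟨i, by rw [← h3, ← h4]; exact hi⟩
          · refine ⟨i, ?_⟩
            rw [← h3, ← h4, ← hi]
            exact (hs i u).2
        rw [h7]; simp
    · have h5 := hc u v
      have h6 := hm u v
      unfold ind at h6
      rw [if_neg huv] at h6
      exact (Finset.card_erase_le).trans (by omega)
  refine hP.toFin ?_
  rw [Fintype.card_subtype_compl, Fintype.card_fin]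
  simp

theorem HasMatchings.remove_two {V : Type} {m m' : V → V → ℕ} (a b c d : V) {k : ℕ}
    (h : HasMatchings m (k + 2)) (hm : ∀ u v, m u v ≤ m' u v + ind a b u v + ind c d u v) :
    HasMatchings m' k := by
  have h1 : HasMatchings (fun u v => m u v - ind a b u v) (k + 1) :=
    HasMatchings.remove a b (k := k + 1) h (fun u v => by omega)
  exact HasMatchings.remove c d h1 (fun u v => by have := hm u v; omega)

/-! ## Cuts -/

theorem cut_add_inner {V : Type} [Fintype V] {r : ℕ} {m : V → V → ℕ}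
    (hr : ∀ v, ∑ w, m v w = r) (Z : Finset V) :
    cut m Z + ∑ x ∈ Z, ∑ y ∈ Z, m x y = r * Z.card := by
  unfold cut
  rw [← Finset.sum_add_distrib]
  have : ∀ x ∈ Z, (∑ y ∈ Zᶜ, m x y + ∑ y ∈ Z, m x y) = r := by
    intro x _
    rw [add_comm, Finset.sum_add_sum_compl, hr x]
  rw [Finset.sum_congr rfl this, Finset.sum_const, smul_eq_mul, mul_comm]

theorem even_inner {V : Type} [Fintype V] {m : V → V → ℕ} (hs : ∀ u v, m u v = m v u)
    (hl : ∀ v, m v v = 0) (Z : Finset V) : Even (∑ x ∈ Z, ∑ y ∈ Z, m x y) := by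
  induction Z using Finset.induction_on with
  | empty => simp
  | insert a Z ha ih =>
    rw [Finset.sum_insert ha, Finset.sum_insert ha, hl a]
    have h1 : ∑ x ∈ Z, ∑ y ∈ insert a Z, m x y = ∑ x ∈ Z, m a x + ∑ x ∈ Z, ∑ y ∈ Z, m x y := by
      rw [← Finset.sum_add_distrib]
      apply Finset.sum_congr rfl
      intro x _
      rw [Finset.sum_insert ha, hs x a]
    rw [h1]
    have h2 : 0 + ∑ x ∈ Z, m a x + (∑ x ∈ Z, m a x + ∑ x ∈ Z, ∑ y ∈ Z, m x y)
        = 2 * ∑ x ∈ Z, m a x + ∑ x ∈ Z, ∑ y ∈ Z, m x y := by ring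
    rw [h2]
    exact (even_two_mul _).add ih

theorem cut_compl {V : Type} [Fintype V] {m : V → V → ℕ} (hs : ∀ u v, m u v = m v u)
    (Z : Finset V) : cut m Zᶜ = cut m Z := by
  unfold cut
  rw [compl_compl, Finset.sum_comm]
  apply Finset.sum_congr rfl
  intro x _
  apply Finset.sum_congr rfl
  intro y _
  exact hs y x

theorem cut_eq_sum {V : Type} [Fintype V] (m : V → V → ℕ) (Z : Finset V) :
    cut m Z = ∑ u, ∑ v, (if (u ∈ Z ∧ v ∉ Z) then m u v else 0) := by
  unfold cut
  have h1 : ∀ u ∈ Z, ∑ v ∈ Zᶜ, m u v = ∑ v, (if (u ∈ Z ∧ v ∉ Z) then m u v else 0) := by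
    intro u hu
    have h2 : ∀ v ∈ Finset.univ, (if (u ∈ Z ∧ v ∉ Z) then m u v else 0)
        = (if v ∈ Zᶜ then m u v else 0) := by
      intro v _
      simp only [hu, true_and, Finset.mem_compl]
    rw [Finset.sum_congr rfl h2, Finset.sum_ite_mem, Finset.univ_inter]
  rw [Finset.sum_congr rfl h1]
  apply Finset.sum_subset (Finset.subset_univ Z)
  intro u _ hu
  apply Finset.sum_eq_zero
  intro v _
  simp [hu]

/-- Twice the cut as a sum over all pairs. -/
theorem two_cut {V : Type} [Fintype V] {m : V → V → ℕ} (hs : ∀ u v, m u v = m v u)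
    (Z : Finset V) : 2 * cut m Z = ∑ u, ∑ v, (if (u ∈ Z ↔ v ∈ Z) then 0 else m u v) := by
  have h1 : 2 * cut m Z = cut m Z + cut m Zᶜ := by rw [cut_compl hs]; ring
  rw [h1, cut_eq_sum, cut_eq_sum, ← Finset.sum_add_distrib]
  apply Finset.sum_congr rfl
  intro u _
  rw [← Finset.sum_add_distrib]
  apply Finset.sum_congr rfl
  intro v _
  by_cases hu : u ∈ Z <;> by_cases hv : v ∈ Z <;> simp [hu, hv]

theorem uncross1 {V : Type} [Fintype V] {m : V → V → ℕ} (hs : ∀ u v, m u v = m v u)
    (X Y : Finset V) : cut m (X ∩ Y) + cut m (X ∪ Y) ≤ cut m X + cut m Y := by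
  have h : 2 * cut m (X ∩ Y) + 2 * cut m (X ∪ Y) ≤ 2 * cut m X + 2 * cut m Y := by
    rw [two_cut hs, two_cut hs, two_cut hs, two_cut hs, ← Finset.sum_add_distrib,
      ← Finset.sum_add_distrib]
    apply Finset.sum_le_sum
    intro u _
    rw [← Finset.sum_add_distrib, ← Finset.sum_add_distrib]
    apply Finset.sum_le_sum
    intro v _
    by_cases hu : u ∈ X <;> by_cases hv : v ∈ X <;> by_cases hu' : u ∈ Y <;>
      by_cases hv' : v ∈ Y <;> simp [hu, hv, hu', hv']
  omega

theorem uncross2 {V : Type} [Fintype V] {m : V → V → ℕ} (hs : ∀ u v, m u v = m v u)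
    (X Y : Finset V) : cut m (X \ Y) + cut m (Y \ X) ≤ cut m X + cut m Y := by
  have h : 2 * cut m (X \ Y) + 2 * cut m (Y \ X) ≤ 2 * cut m X + 2 * cut m Y := by
    rw [two_cut hs, two_cut hs, two_cut hs, two_cut hs, ← Finset.sum_add_distrib,
      ← Finset.sum_add_distrib]
    apply Finset.sum_le_sum
    intro u _
    rw [← Finset.sum_add_distrib, ← Finset.sum_add_distrib]
    apply Finset.sum_le_sum
    intro v _
    by_cases hu : u ∈ X <;> by_cases hv : v ∈ X <;> by_cases hu' : u ∈ Y <;>
      by_cases hv' : v ∈ Y <;> simp [hu, hv, hu', hv']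
  omega

/-- The number of vertices is even. -/
theorem IsRGraph.even_card {V : Type} [Fintype V] {r : ℕ} {m : V → V → ℕ} (h : IsRGraph r m)
    (hr : 1 ≤ r) : Even (Fintype.card V) := by
  by_contra hodd
  rw [Nat.not_even_iff_odd] at hodd
  have h1 := h.2.2.2.2 Finset.univ (by rw [Finset.card_univ]; exact hodd)
  unfold cut at h1
  simp at h1
  omega

/-- Parity of odd cuts. -/
theorem IsRGraph.cut_parity {V : Type} [Fintype V] {r : ℕ} {m : V → V → ℕ} (h : IsRGraph r m)
    (X : Finset V) (hX : Odd X.card) : Even (cut m X + r) := by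
  have h1 := cut_add_inner h.2.2.2.1 X
  have h2 := even_inner h.2.1 h.2.2.1 X
  obtain ⟨t, ht⟩ := hX
  obtain ⟨w, hw⟩ := h2
  rw [ht] at h1
  refine ⟨cut m X + w - r * t, ?_⟩
  have h3 : r * (2 * t + 1) = 2 * (r * t) + r := by ring
  rw [h3] at h1
  omega

/-- In an `r`-graph a tight odd set allows to check cuts on both sides only. -/
theorem rgraph_of_tight {V : Type} [Fintype V] {r : ℕ} {m : V → V → ℕ} [Nonempty V]
    (hs : ∀ u v, m u v = m v u) (hl : ∀ v, m v v = 0) (hreg : ∀ v, ∑ w, m v w = r)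
    (heven : Even (Fintype.card V)) (X : Finset V) (hX : Odd X.card) (hcut : cut m X = r)
    (h1 : ∀ Z ⊆ X, Odd Z.card → r ≤ cut m Z) (h2 : ∀ Z ⊆ Xᶜ, Odd Z.card → r ≤ cut m Z) :
    IsRGraph r m := by
  refine ⟨inferInstance, hs, hl, hreg, fun Y hY => ?_⟩
  have hX' : X.card = (X ∩ Y).card + (X \ Y).card := by
    rw [Finset.card_inter_add_card_sdiff]
  have hY' : Y.card = (X ∩ Y).card + (Y \ X).card := by
    rw [Finset.inter_comm, Finset.card_inter_add_card_sdiff]
  rcases Nat.even_or_odd (X ∩ Y).card with he | ho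
  · have h3 : Odd (X \ Y).card := by
      by_contra h4
      rw [Nat.not_odd_iff_even] at h4
      have := he.add h4
      rw [← hX'] at this
      exact (Nat.not_even_iff_odd.2 hX) this
    have h4 : Odd (Y \ X).card := by
      by_contra h4
      rw [Nat.not_odd_iff_even] at h4
      have := he.add h4
      rw [← hY'] at this
      exact (Nat.not_even_iff_odd.2 hY) this
    have h5 := h1 (X \ Y) Finset.sdiff_subset h3
    have h6 := h2 (Y \ X) (by
      intro v hv
      rw [Finset.mem_sdiff] at hv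
      rw [Finset.mem_compl]
      exact hv.2) h4
    have h7 := uncross2 hs X Y
    omega
  · have h5 := h1 (X ∩ Y) Finset.inter_subset_left ho
    have h6 : Odd ((X ∪ Y)ᶜ).card := by
      rw [Finset.card_compl]
      have h8 : (X ∪ Y).card = X.card + (Y \ X).card := by
        rw [← Finset.card_union_of_disjoint (Finset.disjoint_sdiff), Finset.union_sdiff_self_eq_union]
      have h9 : (X ∪ Y).card ≤ Fintype.card V := Finset.card_le_univ _
      have h10 : Even (Y \ X).card := by
        by_contra h4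
        rw [Nat.not_even_iff_odd] at h4
        have := ho.add_odd h4
        rw [← hY'] at this
        exact (Nat.not_even_iff_odd.2 hY) this
      have h11 : Odd (X ∪ Y).card := by rw [h8]; exact hX.add_even h10
      exact Nat.Even.sub_odd h9 heven h11
    have h7 := h2 (X ∪ Y)ᶜ (by
      apply Finset.compl_subset_compl.2
      exact Finset.subset_union_left) h6
    rw [cut_compl hs] at h7
    have h8 := uncross1 hs X Y
    omega

end Pool.Agent.RGP
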