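import Mathlib

set_option autoImplicit false

/-!
# RGP: `r`-graphs and the number of disjoint perfect matchings, definitions (MP_e2ae37_co)

A finite graph with parallel edges and without loops on the vertex set `V` is given by its edge
multiplicities `m u v` (the number of edges joining `u` and `v`).
-/

open scoped Classical

noncomputable section

namespace Pool.Agent.RGP

/-- The number of edges with exactly one end in `X`. -/
def cut {V : Type} [Fintype V] (m : V → V → ℕ) (X : Finset V) : ℕ :=
  ∑ x ∈ X, ∑ y ∈ Xᶜ, m x y

/-- `m` is an `r`-graph: at least one vertex, symmetric, no loops, `r`-regular, and every set of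
vertices with an odd number of elements is left by at least `r` edges. -/
def IsRGraph {V : Type} [Fintype V] (r : ℕ) (m : V → V → ℕ) : Prop :=
  Nonempty V ∧ (∀ u v, m u v = m v u) ∧ (∀ v, m v v = 0) ∧ (∀ v, ∑ w, m v w = r) ∧
    ∀ X : Finset V, Odd X.card → r ≤ cut m X

/-- `k` pairwise edge-disjoint perfect matchings: the `i`-th matching joins `v` and `s i v`, and
the number of matchings that join `u` and `v` is at most the number of edges joining them. -/
def HasMatchings {V : Type} (m : V → V → ℕ) (k : ℕ) : Prop :=
  ∃ s : Fin k → V → V, (∀ i v, s i v ≠ v ∧ s i (s i v) = v) ∧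
    ∀ u v, (Finset.univ.filter fun i => s i u = v).card ≤ m u v

/-- The largest number of pairwise edge-disjoint perfect matchings. -/
def piNumber {V : Type} (m : V → V → ℕ) : ℕ := sSup {k | HasMatchings m k}

/-- `o(r,k)`: the smallest order of an `r`-graph with `piNumber = k` (infinite if there is none). -/
def o (r k : ℕ) : ℕ∞ :=
  ⨅ (V : Type) (_ : Fintype V) (m : V → V → ℕ) (_ : IsRGraph r m ∧ piNumber m = k),
    (Fintype.card V : ℕ∞)

/-- The pair `{a, b}` as a multiplicity function. -/
def ind {V : Type} (a b u v : V) : ℕ := if (u = a ∧ v = b) ∨ (u = b ∧ v = a) then 1 else 0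

end Pool.Agent.RGP
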