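import Pool.Agent.RGP.Switch

set_option autoImplicit false

/-!
# RGP: contraction and gluing along a tight cut
-/

open scoped Classical

noncomputable section

attribute [-instance] Option.instDecidableEq

namespace Pool.Agent.RGP

/-- The graph obtained by contracting the complement of `X` to one vertex. -/
def con {V : Type} [Fintype V] (m : V → V → ℕ) (X : Finset V) :
    Option {v // v ∈ X} → Option {v // v ∈ X} → ℕ
  | some u, some v => m u.1 v.1
  | some u, none => ∑ w ∈ Xᶜ, m u.1 w
  | none, some v => ∑ w ∈ Xᶜ, m v.1 w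
  | none, none => 0

theorem con_regular {V : Type} [Fintype V] {r : ℕ} {m : V → V → ℕ} {X : Finset V}
    (hreg : ∀ v, ∑ w, m v w = r) (hcut : cut m X = r) :
    ∀ v, ∑ w, con m X v w = r := by
  intro v
  rw [Fintype.sum_option]
  cases v with
  | none =>
    simp only [con]
    rw [zero_add, ← hcut]
    unfold cut
    exact Finset.sum_coe_sort X (fun v => ∑ w ∈ Xᶜ, m v w)
  | some u =>
    simp only [con]
    have h1 : ∑ v : {v // v ∈ X}, m u.1 v.1 = ∑ v ∈ X, m u.1 v :=
      Finset.sum_coe_sort X (fun v => m u.1 v)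
    rw [h1, add_comm, Finset.sum_add_sum_compl, hreg]

theorem con_cut {V : Type} [Fintype V] {r : ℕ} {m : V → V → ℕ} {X : Finset V}
    (hreg : ∀ v, ∑ w, m v w = r) (hcut : cut m X = r) (W : Finset {v // v ∈ X}) :
    cut (con m X) (W.map Function.Embedding.some)
      = cut m (W.map (Function.Embedding.subtype _)) := by
  have h1 := cut_add_inner (con_regular hreg hcut) (W.map Function.Embedding.some)
  have h2 := cut_add_inner hreg (W.map (Function.Embedding.subtype fun v => v ∈ X))
  have h3 : ∑ x ∈ W.map Function.Embedding.some, ∑ y ∈ W.map Function.Embedding.some,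
      con m X x y = ∑ x ∈ W.map (Function.Embedding.subtype fun v => v ∈ X),
        ∑ y ∈ W.map (Function.Embedding.subtype fun v => v ∈ X), m x y := by
    rw [Finset.sum_map, Finset.sum_map]
    apply Finset.sum_congr rfl
    intro x _
    rw [Finset.sum_map, Finset.sum_map]
    rfl
  rw [Finset.card_map] at h1 h2
  omega

theorem con_rgraph {V : Type} [Fintype V] {r : ℕ} {m : V → V → ℕ} (h : IsRGraph r m)
    {X : Finset V} (hX : Odd X.card) (hcut : cut m X = r) : IsRGraph r (con m X) := by
  have hsym : ∀ u v, con m X u v = con m X v u := by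
    intro u v
    cases u <;> cases v <;> simp only [con]
    exact h.2.1 _ _
  have hcase : ∀ Z : Finset (Option {v // v ∈ X}), Odd Z.card → none ∉ Z →
      r ≤ cut (con m X) Z := by
    intro Z hZ hn
    have h1 : Z = Z.eraseNone.map Function.Embedding.some := by
      rw [Finset.map_some_eraseNone, Finset.erase_eq_of_notMem hn]
    rw [h1, con_cut h.2.2.2.1 hcut]
    apply h.2.2.2.2
    rw [Finset.card_map]
    rw [h1, Finset.card_map] at hZ
    exact hZ
  refine ⟨⟨none⟩, hsym, ?_, con_regular h.2.2.2.1 hcut, ?_⟩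
  · intro v
    cases v <;> simp only [con]
    exact h.2.2.1 _
  · intro Z hZ
    by_cases hn : none ∈ Z
    · rw [← cut_compl hsym]
      apply hcase
      · rw [Finset.card_compl]
        have h2 : Fintype.card (Option {v // v ∈ X}) = X.card + 1 := by
          rw [Fintype.card_option, Fintype.card_coe]
        have h3 : Z.card ≤ Fintype.card (Option {v // v ∈ X}) := Finset.card_le_univ Z
        have h4 : Even (Fintype.card (Option {v // v ∈ X})) := by
          rw [h2]; exact hX.add_odd odd_one
        exact Nat.Even.sub_odd h3 h4 hZ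
      · rw [Finset.mem_compl]; exact fun h => h hn
    · exact hcase Z hZ hn

/-- The edges which leave `X`. -/
abbrev Dg {V : Type} (m : V → V → ℕ) (X : Finset V) : Type :=
  Σ p : {p : V × V // p.1 ∈ X ∧ p.2 ∉ X}, Fin (m p.1.1 p.1.2)

def xd {V : Type} {m : V → V → ℕ} {X : Finset V} (d : Dg m X) : V := d.1.1.1
def yd {V : Type} {m : V → V → ℕ} {X : Finset V} (d : Dg m X) : V := d.1.1.2

theorem xd_mem {V : Type} {m : V → V → ℕ} {X : Finset V} (d : Dg m X) : xd d ∈ X := d.1.2.1
theorem yd_mem {V : Type} {m : V → V → ℕ} {X : Finset V} (d : Dg m X) : yd d ∉ X := d.1.2.2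

theorem card_dg {V : Type} [Fintype V] {m : V → V → ℕ} {X : Finset V} {u v : V} (hu : u ∈ X)
    (hv : v ∉ X) :
    (Finset.univ.filter fun d : Dg m X => xd d = u ∧ yd d = v).card = m u v := by
  have h1 : (Finset.univ.filter fun d : Dg m X => xd d = u ∧ yd d = v)
      = (Finset.univ : Finset (Fin (m u v))).image
        (fun t => (⟨⟨(u, v), hu, hv⟩, t⟩ : Dg m X)) := by
    ext d
    rw [Finset.mem_filter, Finset.mem_image]
    constructor
    · rintro ⟨_, h2, h3⟩
      obtain ⟨⟨⟨a, b⟩, hab⟩, t⟩ := d
      have h2' : a = u := h2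
      have h3' : b = v := h3
      subst h2' h3'
      exact ⟨t, Finset.mem_univ _, rfl⟩
    · rintro ⟨t, _, rfl⟩
      exact ⟨Finset.mem_univ _, rfl, rfl⟩
  rw [h1, Finset.card_image_of_injective _ sigma_mk_injective, Finset.card_univ, Fintype.card_fin]

theorem card_xd {V : Type} [Fintype V] {m : V → V → ℕ} {X : Finset V} {u : V} (hu : u ∈ X) :
    (Finset.univ.filter fun d : Dg m X => xd d = u).card = ∑ v ∈ Xᶜ, m u v := by
  rw [Finset.card_eq_sum_card_fiberwise (f := yd) (t := Xᶜ)
    (fun d _ => by simpa using yd_mem d)]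
  apply Finset.sum_congr rfl
  intro v hv
  rw [Finset.filter_filter]
  exact card_dg hu (by simpa using hv)

theorem card_yd {V : Type} [Fintype V] {m : V → V → ℕ} {X : Finset V} {v : V} (hv : v ∉ X) :
    (Finset.univ.filter fun d : Dg m X => yd d = v).card = ∑ u ∈ X, m u v := by
  rw [Finset.card_eq_sum_card_fiberwise (f := xd) (t := X)
    (fun d _ => by simpa using xd_mem d)]
  apply Finset.sum_congr rfl
  intro u hu
  rw [Finset.filter_filter, ← card_dg (m := m) hu hv]
  congr 1
  ext d
  simp only [Finset.mem_filter, Finset.mem_univ, true_and]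
  tauto

/-- Re-gluing of the edges which leave `X`. -/
def glue {V : Type} [Fintype V] (m : V → V → ℕ) (X : Finset V) (τ : Equiv.Perm (Dg m X))
    (u v : V) : ℕ :=
  if u ∈ X then
    if v ∈ X then m u v else (Finset.univ.filter fun d : Dg m X => xd d = u ∧ yd (τ d) = v).card
  else
    if v ∈ X then (Finset.univ.filter fun d : Dg m X => xd d = v ∧ yd (τ d) = u).card else m u v

theorem glue_one {V : Type} [Fintype V] {m : V → V → ℕ} (hs : ∀ u v, m u v = m v u)
    (X : Finset V) : glue m X 1 = m := by
  funext u v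
  unfold glue
  by_cases hu : u ∈ X <;> by_cases hv : v ∈ X
  · rw [if_pos hu, if_pos hv]
  · rw [if_pos hu, if_neg hv]
    exact card_dg hu hv
  · rw [if_neg hu, if_pos hv, hs u v]
    exact card_dg hv hu
  · rw [if_neg hu, if_neg hv]

theorem glue_symm {V : Type} [Fintype V] {m : V → V → ℕ} (hs : ∀ u v, m u v = m v u)
    (X : Finset V) (τ : Equiv.Perm (Dg m X)) (u v : V) : glue m X τ u v = glue m X τ v u := by
  unfold glue
  by_cases hu : u ∈ X <;> by_cases hv : v ∈ X <;> simp only [hu, hv, if_true, if_false]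
  · exact hs u v
  · exact hs u v

theorem card_yd_perm {V : Type} [Fintype V] {m : V → V → ℕ} {X : Finset V}
    (τ : Equiv.Perm (Dg m X)) (v : V) :
    (Finset.univ.filter fun d : Dg m X => yd (τ d) = v).card
      = (Finset.univ.filter fun d : Dg m X => yd d = v).card := by
  refine Finset.card_bij (fun d _ => τ d) ?_ ?_ ?_
  · intro d hd
    simpa using hd
  · intro d _ e _ h
    exact τ.injective h
  · intro d hd
    refine ⟨τ.symm d, ?_, by simp⟩
    simpa using hd

theorem glue_regular {V : Type} [Fintype V] {r : ℕ} {m : V → V → ℕ}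
    (hs : ∀ u v, m u v = m v u) (hreg : ∀ v, ∑ w, m v w = r)
    (X : Finset V) (τ : Equiv.Perm (Dg m X)) (u : V) : ∑ v, glue m X τ u v = r := by
  rw [← Finset.sum_add_sum_compl X]
  by_cases hu : u ∈ X
  · have h1 : ∑ v ∈ X, glue m X τ u v = ∑ v ∈ X, m u v := by
      apply Finset.sum_congr rfl
      intro v hv
      unfold glue
      rw [if_pos hu, if_pos hv]
    have h2 : ∑ v ∈ Xᶜ, glue m X τ u v = ∑ v ∈ Xᶜ, m u v := by
      rw [← card_xd (m := m) hu]
      have h5 := Finset.card_eq_sum_card_fiberwise
        (s := Finset.univ.filter fun d : Dg m X => xd d = u) (f := fun d => yd (τ d)) (t := Xᶜ)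
        (fun d _ => by simpa using yd_mem (τ d))
      rw [h5]
      apply Finset.sum_congr rfl
      intro v hv
      rw [Finset.mem_compl] at hv
      unfold glue
      rw [if_pos hu, if_neg hv, Finset.filter_filter]
    rw [h1, h2, Finset.sum_add_sum_compl, hreg]
  · have h1 : ∑ v ∈ Xᶜ, glue m X τ u v = ∑ v ∈ Xᶜ, m u v := by
      apply Finset.sum_congr rfl
      intro v hv
      rw [Finset.mem_compl] at hv
      unfold glue
      rw [if_neg hu, if_neg hv]
    have h2 : ∑ v ∈ X, glue m X τ u v = ∑ v ∈ X, m u v := by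
      have h3 : ∑ v ∈ X, m u v = ∑ v ∈ X, m v u :=
        Finset.sum_congr rfl (fun v _ => hs u v)
      rw [h3, ← card_yd (m := m) hu, ← card_yd_perm τ]
      have h5 := Finset.card_eq_sum_card_fiberwise
        (s := Finset.univ.filter fun d : Dg m X => yd (τ d) = u) (f := fun d => xd d) (t := X)
        (fun d _ => by simpa using xd_mem d)
      rw [h5]
      apply Finset.sum_congr rfl
      intro v hv
      unfold glue
      rw [if_neg hu, if_pos hv, Finset.filter_filter]
      congr 1
      ext d
      simp only [Finset.mem_filter, Finset.mem_univ, true_and]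
      tauto
    rw [h1, h2, Finset.sum_add_sum_compl, hreg]

theorem glue_cut {V : Type} [Fintype V] {r : ℕ} {m : V → V → ℕ}
    (hs : ∀ u v, m u v = m v u) (hreg : ∀ v, ∑ w, m v w = r)
    (X : Finset V) (τ : Equiv.Perm (Dg m X)) (Z : Finset V) (hZ : Z ⊆ X ∨ Z ⊆ Xᶜ) :
    cut (glue m X τ) Z = cut m Z := by
  have h1 := cut_add_inner (glue_regular hs hreg X τ) Z
  have h2 := cut_add_inner hreg Z
  have h3 : ∑ x ∈ Z, ∑ y ∈ Z, glue m X τ x y = ∑ x ∈ Z, ∑ y ∈ Z, m x y := by
    apply Finset.sum_congr rfl
    intro x hx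
    apply Finset.sum_congr rfl
    intro y hy
    unfold glue
    rcases hZ with hZ | hZ
    · rw [if_pos (hZ hx), if_pos (hZ hy)]
    · rw [if_neg (Finset.mem_compl.1 (hZ hx)), if_neg (Finset.mem_compl.1 (hZ hy))]
  omega

theorem glue_rgraph {V : Type} [Fintype V] {r : ℕ} {m : V → V → ℕ} (h : IsRGraph r m)
    (hr : 1 ≤ r) {X : Finset V} (hX : Odd X.card) (hcut : cut m X = r)
    (τ : Equiv.Perm (Dg m X)) : IsRGraph r (glue m X τ) := by
  have := h.1
  refine rgraph_of_tight (glue_symm h.2.1 X τ) ?_ (glue_regular h.2.1 h.2.2.2.1 X τ)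
    (h.even_card hr) X hX ?_ ?_ ?_
  · intro v
    unfold glue
    by_cases hv : v ∈ X <;> simp only [hv, if_true, if_false]
    · exact h.2.2.1 v
    · exact h.2.2.1 v
  · rw [glue_cut h.2.1 h.2.2.2.1 X τ X (Or.inl (Finset.Subset.refl X)), hcut]
  · intro Z hZ hodd
    rw [glue_cut h.2.1 h.2.2.2.1 X τ Z (Or.inl hZ)]
    exact h.2.2.2.2 Z hodd
  · intro Z hZ hodd
    rw [glue_cut h.2.1 h.2.2.2.1 X τ Z (Or.inr hZ)]
    exact h.2.2.2.2 Z hodd

/-- A transposition of the glued edges changes the graph by one switch. -/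
theorem glue_swap_le {V : Type} [Fintype V] {m : V → V → ℕ} (X : Finset V)
    (τ : Equiv.Perm (Dg m X)) (i j : Dg m X) (u v : V) :
    glue m X (τ * Equiv.swap i j) u v ≤ glue m X τ u v
      + ind (xd i) (yd ((τ * Equiv.swap i j) i)) u v
      + ind (xd j) (yd ((τ * Equiv.swap i j) j)) u v := by
  have key : ∀ a b : V, a ∈ X → b ∉ X →
      (Finset.univ.filter fun d : Dg m X => xd d = a ∧ yd ((τ * Equiv.swap i j) d) = b).card
        ≤ (Finset.univ.filter fun d : Dg m X => xd d = a ∧ yd (τ d) = b).card
          + ind (xd i) (yd ((τ * Equiv.swap i j) i)) a b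
          + ind (xd j) (yd ((τ * Equiv.swap i j) j)) a b := by
    intro a b ha hb
    have h1 : (Finset.univ.filter fun d : Dg m X =>
        xd d = a ∧ yd ((τ * Equiv.swap i j) d) = b) ⊆
        (Finset.univ.filter fun d : Dg m X => xd d = a ∧ yd (τ d) = b)
        ∪ (if (a = xd i ∧ b = yd ((τ * Equiv.swap i j) i)) then {i} else ∅)
        ∪ (if (a = xd j ∧ b = yd ((τ * Equiv.swap i j) j)) then {j} else ∅) := by
      intro d hd
      rw [Finset.mem_filter] at hd
      obtain ⟨_, hd1, hd2⟩ := hd
      by_cases hdi : d = i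
      · subst hdi
        rw [if_pos ⟨hd1.symm, hd2.symm⟩]
        simp
      · by_cases hdj : d = j
        · subst hdj
          rw [if_pos (c := a = xd d ∧ b = yd ((τ * Equiv.swap i d) d)) ⟨hd1.symm, hd2.symm⟩]
          simp
        · have h2 : (τ * Equiv.swap i j) d = τ d := by
            rw [Equiv.Perm.mul_apply, Equiv.swap_apply_of_ne_of_ne hdi hdj]
          rw [h2] at hd2
          simp [hd1, hd2]
    refine (Finset.card_le_card h1).trans ?_
    refine (Finset.card_union_le _ _).trans ?_
    refine Nat.add_le_add ((Finset.card_union_le _ _).trans (Nat.add_le_add (le_refl _) ?_)) ?_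
    · unfold ind
      by_cases h2 : a = xd i ∧ b = yd ((τ * Equiv.swap i j) i)
      · rw [if_pos h2, if_pos (Or.inl h2)]; simp
      · rw [if_neg h2]; simp
    · unfold ind
      by_cases h2 : a = xd j ∧ b = yd ((τ * Equiv.swap i j) j)
      · rw [if_pos h2, if_pos (Or.inl h2)]; simp
      · rw [if_neg h2]; simp
  unfold glue
  by_cases hu : u ∈ X <;> by_cases hv : v ∈ X
  · simp only [hu, hv, if_true]; omega
  · simp only [hu, hv, if_true, if_false]
    exact key u v hu hv
  · simp only [hu, hv, if_true, if_false]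
    rw [ind_comm _ _ u v, ind_comm _ _ u v]
    exact key v u hv hu
  · simp only [hu, hv, if_false]; omega

/-- Choice of an injection. -/
theorem inj_choice {ι D U : Type} [Fintype ι] [Fintype D] (f : ι → U) (g : D → U)
    (h : ∀ u, (Finset.univ.filter fun i => f i = u).card
      ≤ (Finset.univ.filter fun d => g d = u).card) :
    ∃ δ : ι → D, Function.Injective δ ∧ ∀ i, g (δ i) = f i := by
  have h1 : ∀ u, Nonempty ({i // f i = u} ↪ {d // g d = u}) := by
    intro u
    apply Function.Embedding.nonempty_of_card_le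
    rw [Fintype.card_subtype, Fintype.card_subtype]
    exact h u
  have e := fun u => (h1 u).some
  refine ⟨fun i => (e (f i) ⟨i, rfl⟩).1, ?_, fun i => (e (f i) ⟨i, rfl⟩).2⟩
  intro i j hij
  have h2 : f i = f j := by
    have h3 := (e (f i) ⟨i, rfl⟩).2
    have h4 := (e (f j) ⟨j, rfl⟩).2
    simp only at hij
    rw [← h3, ← h4, hij]
  have h5 : ∀ (u : U) (hu : f i = u), (e (f i) ⟨i, rfl⟩).1 = (e u ⟨i, hu⟩).1 := by
    intro u hu; subst hu; rfl
  have h6 : (e (f j) ⟨i, h2⟩).1 = (e (f j) ⟨j, rfl⟩).1 := by
    rw [← h5 (f j) h2]; exact hij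
  have h7 := (e (f j)).injective (Subtype.ext h6)
  exact congrArg Subtype.val h7

theorem perm_extend {p : ℕ} {D : Type} [Fintype D] (δ ε : Fin p → D)
    (hδ : Function.Injective δ) (hε : Function.Injective ε) :
    ∃ τ : Equiv.Perm D, ∀ i, τ (δ i) = ε i := by
  let e : {x // x ∈ Set.range δ} ≃ {x // x ∈ Set.range ε} :=
    (Equiv.ofInjective δ hδ).symm.trans (Equiv.ofInjective ε hε)
  refine ⟨e.extendSubtype, fun i => ?_⟩
  rw [Equiv.extendSubtype_apply_of_mem e (δ i) ⟨i, rfl⟩]
  have h1 : (⟨δ i, ⟨i, rfl⟩⟩ : {x // x ∈ Set.range δ}) = Equiv.ofInjective δ hδ i := rfl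
  show (e ⟨δ i, ⟨i, rfl⟩⟩).1 = ε i
  rw [h1]
  simp [e]

/-- Gluing matchings of the two contractions. -/
theorem glue_matchings {V : Type} [Fintype V] {r : ℕ} {m : V → V → ℕ} (h : IsRGraph r m)
    (X : Finset V) {p : ℕ} (h1 : HasMatchings (con m X) p) (h2 : HasMatchings (con m Xᶜ) p) :
    ∃ τ : Equiv.Perm (Dg m X), HasMatchings (glue m X τ) p := by
  obtain ⟨σ, hσ, cσ⟩ := h1
  obtain ⟨ρ, hρ, cρ⟩ := h2
  have hf : ∀ i, ∃ u, σ i none = some u := by
    intro i
    cases hx : σ i none with
    | none => exact absurd hx (hσ i none).1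
    | some u => exact ⟨u, rfl⟩
  have hg : ∀ i, ∃ u, ρ i none = some u := by
    intro i
    cases hx : ρ i none with
    | none => exact absurd hx (hρ i none).1
    | some u => exact ⟨u, rfl⟩
  choose f hf using hf
  choose g hg using hg
  obtain ⟨δ, hδ, hδ'⟩ : ∃ δ : Fin p → Dg m X, Function.Injective δ ∧
      ∀ i, xd (δ i) = (f i).1 := by
    apply inj_choice
    intro u
    by_cases hu : u ∈ X
    · rw [card_xd hu]
      have h3 := cσ none (some ⟨u, hu⟩)
      simp only [con] at h3
      refine le_trans (Finset.card_le_card ?_) h3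
      intro i hi
      rw [Finset.mem_filter] at hi ⊢
      refine ⟨Finset.mem_univ _, ?_⟩
      rw [hf i]
      congr 1
      exact Subtype.ext hi.2
    · have : (Finset.univ.filter fun i => (f i).1 = u) = ∅ := by
        rw [Finset.filter_eq_empty_iff]
        intro i _ hi
        exact hu (hi ▸ (f i).2)
      rw [this]; simp
  obtain ⟨ε, hε, hε'⟩ : ∃ ε : Fin p → Dg m X, Function.Injective ε ∧
      ∀ i, yd (ε i) = (g i).1 := by
    apply inj_choice
    intro u
    by_cases hu : u ∈ Xᶜ
    · rw [card_yd (Finset.mem_compl.1 hu)]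
      have h3 := cρ none (some ⟨u, hu⟩)
      simp only [con] at h3
      have h4 : ∑ w ∈ Xᶜᶜ, m u w = ∑ w ∈ X, m w u := by
        rw [compl_compl]
        exact Finset.sum_congr rfl (fun w _ => h.2.1 u w)
      rw [h4] at h3
      refine le_trans (Finset.card_le_card ?_) h3
      intro i hi
      rw [Finset.mem_filter] at hi ⊢
      refine ⟨Finset.mem_univ _, ?_⟩
      rw [hg i]
      congr 1
      exact Subtype.ext hi.2
    · have : (Finset.univ.filter fun i => (g i).1 = u) = ∅ := by
        rw [Finset.filter_eq_empty_iff]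
        intro i _ hi
        exact hu (hi ▸ (g i).2)
      rw [this]; simp
  obtain ⟨τ, hτ⟩ := perm_extend δ ε hδ hε
  refine ⟨τ, ?_⟩
  -- the glued matchings
  let μ : Fin p → V → V := fun i v =>
    if hv : v ∈ X then (σ i (some ⟨v, hv⟩)).elim (g i).1 Subtype.val
    else (ρ i (some ⟨v, Finset.mem_compl.2 hv⟩)).elim (f i).1 Subtype.val
  have μ1 : ∀ i v (hv : v ∈ X) (w : {v // v ∈ X}), σ i (some ⟨v, hv⟩) = some w →
      μ i v = w.1 := by
    intro i v hv w hw
    simp only [μ]
    rw [dif_pos hv, hw]; rfl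
  have μ2 : ∀ i v (hv : v ∈ X), σ i (some ⟨v, hv⟩) = none → μ i v = (g i).1 := by
    intro i v hv hw
    simp only [μ]
    rw [dif_pos hv, hw]; rfl
  have μ3 : ∀ i v (hv : v ∉ X) (w : {v // v ∈ Xᶜ}),
      ρ i (some ⟨v, Finset.mem_compl.2 hv⟩) = some w → μ i v = w.1 := by
    intro i v hv w hw
    simp only [μ]
    rw [dif_neg hv, hw]; rfl
  have μ4 : ∀ i v (hv : v ∉ X), ρ i (some ⟨v, Finset.mem_compl.2 hv⟩) = none →
      μ i v = (f i).1 := by
    intro i v hv hw
    simp only [μ]
    rw [dif_neg hv, hw]; rfl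
  -- the dangling ends
  have hf' : ∀ i v (hv : v ∈ X), σ i (some ⟨v, hv⟩) = none → (f i).1 = v := by
    intro i v hv hw
    have h3 := (hσ i (some ⟨v, hv⟩)).2
    rw [hw, hf i] at h3
    have h4 := Option.some.inj h3
    rw [h4]
  have hg' : ∀ i v (hv : v ∉ X), ρ i (some ⟨v, Finset.mem_compl.2 hv⟩) = none →
      (g i).1 = v := by
    intro i v hv hw
    have h3 := (hρ i (some ⟨v, Finset.mem_compl.2 hv⟩)).2
    rw [hw, hg i] at h3
    have h4 := Option.some.inj h3
    rw [h4]
  have hf2 : ∀ i, σ i (some (f i)) = none := by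
    intro i
    have h3 := (hσ i none).2
    rw [hf i] at h3
    exact h3
  have hg2 : ∀ i, ρ i (some (g i)) = none := by
    intro i
    have h3 := (hρ i none).2
    rw [hg i] at h3
    exact h3
  have hgX : ∀ i, (g i).1 ∉ X := fun i => Finset.mem_compl.1 (g i).2
  refine ⟨μ, ?_, ?_⟩
  · intro i v
    by_cases hv : v ∈ X
    · cases hx : σ i (some ⟨v, hv⟩) with
      | none =>
        have h3 := μ2 i v hv hx
        constructor
        · rw [h3]; intro h4; exact hgX i (h4 ▸ hv)
        · rw [h3]
          have h4 := μ4 i (g i).1 (hgX i) (hg2 i)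
          rw [h4]; exact hf' i v hv hx
      | some w =>
        have h3 := μ1 i v hv w hx
        constructor
        · rw [h3]; intro h4
          apply (hσ i (some ⟨v, hv⟩)).1
          rw [hx]; congr 1; exact Subtype.ext h4
        · rw [h3]
          have h5 := (hσ i (some ⟨v, hv⟩)).2
          rw [hx] at h5
          exact μ1 i w.1 w.2 ⟨v, hv⟩ h5
    · cases hx : ρ i (some ⟨v, Finset.mem_compl.2 hv⟩) with
      | none =>
        have h3 := μ4 i v hv hx
        constructor
        · rw [h3]; intro h4; exact hv (h4 ▸ (f i).2)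
        · rw [h3]
          have h4 := μ2 i (f i).1 (f i).2 (hf2 i)
          rw [h4]; exact hg' i v hv hx
      | some w =>
        have h3 := μ3 i v hv w hx
        constructor
        · rw [h3]; intro h4
          apply (hρ i (some ⟨v, Finset.mem_compl.2 hv⟩)).1
          rw [hx]; congr 1; exact Subtype.ext h4
        · rw [h3]
          have h5 := (hρ i (some ⟨v, Finset.mem_compl.2 hv⟩)).2
          rw [hx] at h5
          exact μ3 i w.1 (Finset.mem_compl.1 w.2) ⟨v, Finset.mem_compl.2 hv⟩ h5
  · intro u v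
    by_cases hu : u ∈ X
    · by_cases hv : v ∈ X
      · have h3 : glue m X τ u v = m u v := by unfold glue; rw [if_pos hu, if_pos hv]
        rw [h3]
        refine le_trans (Finset.card_le_card ?_) (cσ (some ⟨u, hu⟩) (some ⟨v, hv⟩))
        intro i hi
        rw [Finset.mem_filter] at hi ⊢
        refine ⟨Finset.mem_univ _, ?_⟩
        cases hx : σ i (some ⟨u, hu⟩) with
        | none =>
          exfalso
          have h4 := μ2 i u hu hx
          rw [hi.2] at h4
          exact hgX i (h4 ▸ hv)
        | some w =>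
          have h4 := μ1 i u hu w hx
          rw [hi.2] at h4
          congr 1
          exact Subtype.ext h4.symm
      · have h3 : glue m X τ u v
            = (Finset.univ.filter fun d : Dg m X => xd d = u ∧ yd (τ d) = v).card := by
          unfold glue; rw [if_pos hu, if_neg hv]
        rw [h3]
        refine Finset.card_le_card_of_injOn δ ?_ (fun a _ b _ h => hδ h)
        intro i hi
        have hi' : μ i u = v := by simpa using hi
        cases hx : σ i (some ⟨u, hu⟩) with
        | none =>
          have h4 := μ2 i u hu hx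
          have h5 := hf' i u hu hx
          rw [hi'] at h4
          simp only [Finset.coe_filter, Finset.mem_univ, true_and, Set.mem_ofPred_eq]
          exact ⟨by rw [hδ' i, h5], by rw [hτ i, hε' i, h4]⟩
        | some w =>
          exfalso
          have h4 := μ1 i u hu w hx
          rw [hi'] at h4
          exact hv (h4 ▸ w.2)
    · by_cases hv : v ∈ X
      · have h3 : glue m X τ u v
            = (Finset.univ.filter fun d : Dg m X => xd d = v ∧ yd (τ d) = u).card := by
          unfold glue; rw [if_neg hu, if_pos hv]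
        rw [h3]
        refine Finset.card_le_card_of_injOn δ ?_ (fun a _ b _ h => hδ h)
        intro i hi
        have hi' : μ i u = v := by simpa using hi
        cases hx : ρ i (some ⟨u, Finset.mem_compl.2 hu⟩) with
        | none =>
          have h4 := μ4 i u hu hx
          have h5 := hg' i u hu hx
          rw [hi'] at h4
          simp only [Finset.coe_filter, Finset.mem_univ, true_and, Set.mem_ofPred_eq]
          exact ⟨by rw [hδ' i, h4], by rw [hτ i, hε' i, h5]⟩
        | some w =>
          exfalso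
          have h4 := μ3 i u hu w hx
          rw [hi'] at h4
          exact (Finset.mem_compl.1 w.2) (h4 ▸ hv)
      · have h3 : glue m X τ u v = m u v := by unfold glue; rw [if_neg hu, if_neg hv]
        rw [h3]
        refine le_trans (Finset.card_le_card ?_)
          (cρ (some ⟨u, Finset.mem_compl.2 hu⟩) (some ⟨v, Finset.mem_compl.2 hv⟩))
        intro i hi
        rw [Finset.mem_filter] at hi ⊢
        refine ⟨Finset.mem_univ _, ?_⟩
        cases hx : ρ i (some ⟨u, Finset.mem_compl.2 hu⟩) with
        | none =>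
          exfalso
          have h4 := μ4 i u hu hx
          rw [hi.2] at h4
          exact hv (h4 ▸ (f i).2)
        | some w =>
          have h4 := μ3 i u hu w hx
          rw [hi.2] at h4
          congr 1
          exact Subtype.ext h4.symm

end Pool.Agent.RGP
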