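import Pool.Agent.RGP.Glue

set_option autoImplicit false

/-!
# RGP: the main argument
-/

open scoped Classical

noncomputable section

namespace Pool.Agent.RGP

/-- A bad graph of least order has no nontrivial tight cut. -/
theorem no_tight {V : Type} [Fintype V] {r k : ℕ} {m : V → V → ℕ} (h : IsRGraph r m)
    (hr : 1 ≤ r)
    (hA : ∀ (W : Type) [Fintype W] (m' : W → W → ℕ), Fintype.card W ≤ Fintype.card V →
      IsRGraph r m' → HasMatchings m' k → HasMatchings m' (k + 2))
    (hB : ∀ (W : Type) [Fintype W] (m' : W → W → ℕ), Fintype.card W < Fintype.card V →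
      IsRGraph r m' → HasMatchings m' k)
    (hbad : ¬ HasMatchings m k) (X : Finset V) (hX : Odd X.card) (h3 : 3 ≤ X.card)
    (h3' : X.card + 3 ≤ Fintype.card V) : r + 2 ≤ cut m X := by
  by_contra hcon
  have h1 := h.2.2.2.2 X hX
  have h2 := h.cut_parity X hX
  have hcut : cut m X = r := by
    obtain ⟨t, ht⟩ := h2
    omega
  have hcut' : cut m Xᶜ = r := by rw [cut_compl h.2.1]; exact hcut
  have hX' : Odd (Xᶜ).card := by
    rw [Finset.card_compl]
    exact Nat.Even.sub_odd (Finset.card_le_univ X) (h.even_card hr) hX
  have hc1 : HasMatchings (con m X) (k + 2) := by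
    have h4 : Fintype.card (Option {v // v ∈ X}) < Fintype.card V := by
      rw [Fintype.card_option, Fintype.card_coe]; omega
    have h5 := con_rgraph h hX hcut
    exact hA _ _ h4.le h5 (hB _ _ h4 h5)
  have hc2 : HasMatchings (con m Xᶜ) (k + 2) := by
    have h4 : Fintype.card (Option {v // v ∈ Xᶜ}) < Fintype.card V := by
      rw [Fintype.card_option, Fintype.card_coe, Finset.card_compl]; omega
    have h5 := con_rgraph h hX' hcut'
    exact hA _ _ h4.le h5 (hB _ _ h4 h5)
  obtain ⟨τ, hτ⟩ := glue_matchings h X hc1 hc2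
  have hall : ∀ τ : Equiv.Perm (Dg m X), ¬ HasMatchings (glue m X τ) k := by
    intro τ
    refine Equiv.Perm.swap_induction_on' τ ?_ ?_
    · rw [glue_one h.2.1]; exact hbad
    · intro f i j _ hf hcon2
      apply hf
      have h4 := hA V (glue m X (f * Equiv.swap i j)) (le_refl _)
        (glue_rgraph h hr hX hcut _) hcon2
      exact HasMatchings.remove_two _ _ _ _ h4 (fun u v => glue_swap_le X f i j u v)
  exact hall τ (hτ.mono (by omega))

theorem const_matchings {V : Type} {m : V → V → ℕ} {r : ℕ} (f : V → V)
    (hf : ∀ v, f v ≠ v ∧ f (f v) = v) (hm : ∀ v, m v (f v) = r) : HasMatchings m r := by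
  refine ⟨fun _ => f, fun _ v => hf v, fun u v => ?_⟩
  by_cases huv : f u = v
  · subst huv
    rw [hm u]
    exact (Finset.card_le_univ _).trans (by rw [Fintype.card_fin])
  · simp [huv]

theorem two_le_sum {V : Type} [Fintype V] (f : V → ℕ) {b v : V} (h : b ≠ v) :
    f b + f v ≤ ∑ w, f w := by
  rw [← Finset.sum_pair h]
  exact Finset.sum_le_sum_of_subset (Finset.subset_univ _)

theorem inner_three {V : Type} (m : V → V → ℕ) (hs : ∀ u v, m u v = m v u)
    (hl : ∀ v, m v v = 0) {a b c : V} (hab : a ≠ b) (hac : a ≠ c) (hbc : b ≠ c) :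
    ∑ x ∈ ({a, b, c} : Finset V), ∑ y ∈ ({a, b, c} : Finset V), m x y
      = 2 * (m a b + m a c + m b c) := by
  have ha : a ∉ ({b, c} : Finset V) := by simp [hab, hac]
  have hb : b ∉ ({c} : Finset V) := by simp [hbc]
  simp only [Finset.sum_insert ha, Finset.sum_insert hb, Finset.sum_singleton, hl]
  rw [hs b a, hs c a, hs c b]
  ring

theorem card_three {V : Type} {a b c : V} (hab : a ≠ b) (hac : a ≠ c) (hbc : b ≠ c) :
    ({a, b, c} : Finset V).card = 3 := by
  rw [Finset.card_eq_three]
  exact ⟨a, b, c, hab, hac, hbc, rfl⟩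

/-- An `r`-fold pair in a bad graph of least order is impossible. -/
theorem base_case {V : Type} [Fintype V] {r k : ℕ} {m : V → V → ℕ} (h : IsRGraph r m)
    (hr : 1 ≤ r) (hk : k ≤ r)
    (hA : ∀ (W : Type) [Fintype W] (m' : W → W → ℕ), Fintype.card W ≤ Fintype.card V →
      IsRGraph r m' → HasMatchings m' k → HasMatchings m' (k + 2))
    (hB : ∀ (W : Type) [Fintype W] (m' : W → W → ℕ), Fintype.card W < Fintype.card V →
      IsRGraph r m' → HasMatchings m' k)
    (hbad : ¬ HasMatchings m k) {a b : V} (hab : a ≠ b) (hm : m a b = r) : False := by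
  have ha0 : ∀ v, v ≠ b → m a v = 0 := by
    intro v hv
    have h1 := two_le_sum (m a) hv.symm
    rw [h.2.2.2.1 a] at h1
    omega
  have hb0 : ∀ v, v ≠ a → m b v = 0 := by
    intro v hv
    have h1 := two_le_sum (m b) hv.symm
    rw [h.2.2.2.1 b, h.2.1 b a] at h1
    omega
  by_cases h6 : 6 ≤ Fintype.card V
  · -- a third vertex
    obtain ⟨c, hc⟩ : ∃ c : V, c ∉ ({a, b} : Finset V) := by
      by_contra hcon
      push Not at hcon
      have h1 : Fintype.card V ≤ 2 := by
        rw [← Finset.card_univ]
        refine (Finset.card_le_card (fun v _ => hcon v)).trans ?_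
        exact Finset.card_le_two
      omega
    simp only [Finset.mem_insert, Finset.mem_singleton, not_or] at hc
    have hac : a ≠ c := fun h => hc.1 h.symm
    have hbc : b ≠ c := fun h => hc.2 h.symm
    have h1 := cut_add_inner h.2.2.2.1 ({a, b, c} : Finset V)
    rw [inner_three m h.2.1 h.2.2.1 hab hac hbc, card_three hab hac hbc, hm, ha0 c hc.2,
      hb0 c hc.1] at h1
    have h2 := no_tight h hr hA hB hbad ({a, b, c} : Finset V)
      (by rw [card_three hab hac hbc]; decide) (by rw [card_three hab hac hbc])
      (by rw [card_three hab hac hbc]; omega)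
    omega
  · have heven := h.even_card hr
    apply hbad
    refine HasMatchings.mono ?_ hk
    have hS : (({a, b} : Finset V)ᶜ).card + 2 = Fintype.card V := by
      have h1 := Finset.card_add_card_compl ({a, b} : Finset V)
      rw [Finset.card_pair hab] at h1
      omega
    have hS2 : (({a, b} : Finset V)ᶜ).card = 0 ∨ (({a, b} : Finset V)ᶜ).card = 2 := by
      obtain ⟨t, ht⟩ := heven
      omega
    rcases hS2 with hS2 | hS2
    · rw [Finset.card_eq_zero] at hS2
      have hall : ∀ v, v = a ∨ v = b := by
        intro v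
        by_contra hv
        have : v ∈ (({a, b} : Finset V)ᶜ) := by
          rw [Finset.mem_compl]; simpa using hv
        rw [hS2] at this
        simp at this
      refine const_matchings (fun v => if v = a then b else a) ?_ ?_
      · intro v
        rcases hall v with rfl | rfl
        · simp [hab.symm]
        · simp [hab.symm, hab]
      · intro v
        rcases hall v with rfl | rfl
        · simp [hm]
        · rw [if_neg hab.symm, h.2.1]; exact hm
    · obtain ⟨c, d, hcd, hcd'⟩ := Finset.card_eq_two.1 hS2
      have hcm : c ∈ (({a, b} : Finset V)ᶜ) := by rw [hcd']; simp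
      have hdm : d ∈ (({a, b} : Finset V)ᶜ) := by rw [hcd']; simp
      simp only [Finset.mem_compl, Finset.mem_insert, Finset.mem_singleton, not_or] at hcm hdm
      have hall : ∀ v, v = a ∨ v = b ∨ v = c ∨ v = d := by
        intro v
        by_cases hv : v = a ∨ v = b
        · tauto
        · have : v ∈ (({a, b} : Finset V)ᶜ) := by
            rw [Finset.mem_compl]; simpa using hv
          rw [hcd'] at this
          simp only [Finset.mem_insert, Finset.mem_singleton] at this
          tauto
      have hmcd : m c d = r := by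
        rw [← h.2.2.2.1 c]
        symm
        apply Finset.sum_eq_single d
        · intro v _ hv
          rcases hall v with rfl | rfl | rfl | rfl
          · rw [h.2.1]; exact ha0 c hcm.2
          · rw [h.2.1]; exact hb0 c hcm.1
          · exact h.2.2.1 _
          · exact absurd rfl hv
        · intro hd; exact absurd (Finset.mem_univ d) hd
      refine const_matchings
        (fun v => if v = a then b else if v = b then a else if v = c then d else c) ?_ ?_
      · intro v
        rcases hall v with rfl | rfl | rfl | rfl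
        · simp [hab.symm]
        · simp [hab.symm, hab]
        · simp [hcm.1, hcm.2, hcd.symm, hdm.1, hdm.2]
        · simp [hdm.1, hdm.2, hcd.symm, hcd, hcm.1, hcm.2]
      · intro v
        rcases hall v with rfl | rfl | rfl | rfl
        · simp [hm]
        · rw [if_neg hab.symm, if_pos rfl, h.2.1]; exact hm
        · simp [hcm.1, hcm.2, hmcd]
        · rw [if_neg hdm.1, if_neg hdm.2, if_neg hcd.symm, h.2.1]; exact hmcd

theorem no_bad {V : Type} [Fintype V] {r k : ℕ} (hr : 1 ≤ r) (hk : k ≤ r)
    (hA : ∀ (W : Type) [Fintype W] (m' : W → W → ℕ), Fintype.card W ≤ Fintype.card V →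
      IsRGraph r m' → HasMatchings m' k → HasMatchings m' (k + 2))
    (hB : ∀ (W : Type) [Fintype W] (m' : W → W → ℕ), Fintype.card W < Fintype.card V →
      IsRGraph r m' → HasMatchings m' k) {a b : V} (hab : a ≠ b) (t : ℕ) :
    ∀ m : V → V → ℕ, IsRGraph r m → ¬ HasMatchings m k → m a b + t = r → False := by
  induction t with
  | zero =>
    intro m h hbad hm
    exact base_case h hr hk hA hB hbad hab (by omega)
  | succ t ih =>
    intro m h hbad hm
    have hex : ∀ x y : V, x ≠ y → m x y < r → ∃ c, c ≠ y ∧ c ≠ x ∧ 1 ≤ m x c := by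
      intro x y hxy hlt
      by_contra hcon
      push Not at hcon
      have h1 : ∑ w, m x w = m x y := by
        apply Finset.sum_eq_single y
        · intro w _ hw
          by_cases hwx : w = x
          · rw [hwx]; exact h.2.2.1 x
          · have := hcon w hw hwx; omega
        · intro hy; exact absurd (Finset.mem_univ y) hy
      rw [h.2.2.2.1] at h1
      omega
    have hlt : m a b < r := by omega
    by_cases hpair : ∃ c d, c ≠ b ∧ c ≠ a ∧ d ≠ a ∧ d ≠ b ∧ c ≠ d ∧ 1 ≤ m a c ∧ 1 ≤ m b d
    · obtain ⟨c, d, hcb, hca, hda, hdb, hcd, hac, hbd⟩ := hpair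
      have h1 := sw_rgraph h hab hca.symm hcb.symm hda.symm hdb.symm hcd hac hbd
        (fun X hX h3 h3' => no_tight h hr hA hB hbad X hX h3 h3') hr
      refine ih (sw m a b c d) h1 ?_ ?_
      · intro h2
        apply hbad
        exact sw_matchings h.2.1 hab hcb.symm hda.symm hac hbd (hA V _ (le_refl _) h1 h2)
      · have h2 := sw_add h.2.1 hcb.symm hda.symm hac hbd hab a b
        have e1 : ind a c a b = 0 := by
          unfold ind
          rw [if_neg]
          rintro (⟨_, h3⟩ | ⟨h3, _⟩)
          · exact hcb h3.symm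
          · exact hca h3.symm
        have e2 : ind b d a b = 0 := by
          unfold ind
          rw [if_neg]
          rintro (⟨h3, _⟩ | ⟨h3, _⟩)
          · exact hab h3
          · exact hda h3.symm
        have e3 : ind a b a b = 1 := by
          unfold ind
          rw [if_pos]
          exact Or.inl ⟨rfl, rfl⟩
        have e4 : ind c d a b = 0 := by
          unfold ind
          rw [if_neg]
          rintro (⟨h3, _⟩ | ⟨h3, _⟩)
          · exact hca h3.symm
          · exact hda h3.symm
        rw [e1, e2, e3, e4] at h2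
        omega
    · push Not at hpair
      obtain ⟨c, hcb, hca, hac⟩ := hex a b hab hlt
      obtain ⟨d, hda, hdb, hbd⟩ := hex b a hab.symm (by rw [h.2.1]; exact hlt)
      have hcd : c = d := by
        by_contra hne
        have := hpair c d hcb hca hda hdb hne hac
        omega
      subst hcd
      have h1 : ∑ w, m a w = m a b + m a c := by
        rw [← Finset.sum_pair hcb.symm]
        symm
        apply Finset.sum_subset (Finset.subset_univ _)
        intro v _ hv
        simp only [Finset.mem_insert, Finset.mem_singleton, not_or] at hv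
        by_cases hva : v = a
        · rw [hva]; exact h.2.2.1 a
        · by_contra hne
          have := hpair v c hv.1 hva hca hcb hv.2 (by omega)
          omega
      have h2 : ∑ w, m b w = m b a + m b c := by
        rw [← Finset.sum_pair hca.symm]
        symm
        apply Finset.sum_subset (Finset.subset_univ _)
        intro v _ hv
        simp only [Finset.mem_insert, Finset.mem_singleton, not_or] at hv
        by_cases hvb : v = b
        · rw [hvb]; exact h.2.2.1 b
        · by_contra hne
          have := hpair c v hcb hca hv.1 hvb (fun h => hv.2 h.symm) hac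
          omega
      rw [h.2.2.2.1] at h1 h2
      have h3 := cut_add_inner h.2.2.2.1 ({a, b, c} : Finset V)
      rw [inner_three m h.2.1 h.2.2.1 hab hca.symm hcb.symm,
        card_three hab hca.symm hcb.symm] at h3
      have h4 := h.2.2.2.2 ({a, b, c} : Finset V)
        (by rw [card_three hab hca.symm hcb.symm]; decide)
      rw [h.2.1 b a] at h2
      omega

theorem core {r k : ℕ} (hr : 1 ≤ r) (hk : k ≤ r) (n : ℕ) :
    ∀ (V : Type) [Fintype V] (m : V → V → ℕ), Fintype.card V = n → IsRGraph r m →
      ¬ HasMatchings m k → ∃ (W : Type) (_ : Fintype W) (m' : W → W → ℕ),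
        Fintype.card W ≤ n ∧ IsRGraph r m' ∧ HasMatchings m' k ∧ ¬ HasMatchings m' (k + 2) := by
  induction n using Nat.strong_induction_on with
  | _ n ih =>
    intro V _ m hn h hbad
    by_contra hcon
    have hA : ∀ (W : Type) [Fintype W] (m' : W → W → ℕ), Fintype.card W ≤ Fintype.card V →
        IsRGraph r m' → HasMatchings m' k → HasMatchings m' (k + 2) := by
      intro W _ m' hW h1 h2
      by_contra h3
      exact hcon ⟨W, inferInstance, m', by omega, h1, h2, h3⟩
    have hB : ∀ (W : Type) [Fintype W] (m' : W → W → ℕ), Fintype.card W < Fintype.card V →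
        IsRGraph r m' → HasMatchings m' k := by
      intro W _ m' hW h1
      by_contra h2
      obtain ⟨U, _, m2, hU, h3, h4, h5⟩ := ih (Fintype.card W) (by omega) W m' rfl h1 h2
      exact hcon ⟨U, inferInstance, m2, by omega, h3, h4, h5⟩
    obtain ⟨a⟩ := h.1
    obtain ⟨b, hb⟩ : ∃ b, 1 ≤ m a b := by
      by_contra hc
      push Not at hc
      have h1 : ∑ w, m a w = 0 := by
        apply Finset.sum_eq_zero
        intro w _
        have := hc w
        omega
      rw [h.2.2.2.1] at h1
      omega
    have hab : a ≠ b := by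
      intro hab
      rw [← hab, h.2.2.1] at hb
      omega
    have h1 : m a b ≤ r := by
      rw [← h.2.2.2.1 a]
      exact Finset.single_le_sum (fun _ _ => Nat.zero_le _) (Finset.mem_univ b)
    exact no_bad hr hk hA hB hab (r - m a b) m h hbad (by omega)

/-! ## The number of matchings -/

theorem HasMatchings.le {V : Type} [Fintype V] {r : ℕ} {m : V → V → ℕ} (h : IsRGraph r m)
    {j : ℕ} (hj : HasMatchings m j) : j ≤ r := by
  obtain ⟨v⟩ := h.1
  obtain ⟨s, _, hc⟩ := hj
  have h1 : j = ∑ w, (Finset.univ.filter fun i => s i v = w).card := by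
    have h2 := Finset.card_eq_sum_card_fiberwise (s := (Finset.univ : Finset (Fin j)))
      (f := fun i => s i v) (t := Finset.univ) (fun _ _ => by simp)
    rw [Finset.card_univ, Fintype.card_fin] at h2
    exact h2
  rw [h1, ← h.2.2.2.1 v]
  exact Finset.sum_le_sum (fun w _ => hc v w)

theorem pi_spec {V : Type} [Fintype V] {r : ℕ} {m : V → V → ℕ} (h : IsRGraph r m) (j : ℕ) :
    piNumber m = j ↔ HasMatchings m j ∧ ¬ HasMatchings m (j + 1) := by
  have hne : {k | HasMatchings m k}.Nonempty := ⟨0, hasMatchings_zero m⟩
  have hbdd : BddAbove {k | HasMatchings m k} := ⟨r, fun k hk => HasMatchings.le h hk⟩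
  constructor
  · intro hp
    have h1 : HasMatchings m (piNumber m) := Nat.sSup_mem hne hbdd
    rw [hp] at h1
    refine ⟨h1, fun h2 => ?_⟩
    have h3 : j + 1 ≤ piNumber m := le_csSup hbdd h2
    omega
  · rintro ⟨h1, h2⟩
    apply le_antisymm
    · apply csSup_le hne
      intro k hk
      by_contra hlt
      exact h2 (HasMatchings.mono hk (by omega))
    · exact le_csSup hbdd h1

theorem main (r k : ℕ) (hk : 1 ≤ k) (hkr : k ≤ r) : min (o r k) (o r (k + 1)) ≤ o r (k - 1) := by
  conv_rhs => unfold o
  refine le_iInf fun V => le_iInf fun _ => le_iInf fun m => le_iInf fun h => ?_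
  obtain ⟨h, hp⟩ := h
  have h1 := ((pi_spec h (k - 1)).1 hp).2
  rw [Nat.sub_add_cancel hk] at h1
  obtain ⟨W, _, m', hW, h2, h3, h4⟩ := core (by omega) hkr (Fintype.card V) V m rfl h h1
  have hWc : ((Fintype.card W : ℕ) : ℕ∞) ≤ ((Fintype.card V : ℕ) : ℕ∞) := by exact_mod_cast hW
  by_cases h5 : HasMatchings m' (k + 1)
  · have h6 : piNumber m' = k + 1 := (pi_spec h2 (k + 1)).2 ⟨h5, h4⟩
    refine (min_le_right _ _).trans (le_trans ?_ hWc)
    unfold o
    exact iInf_le_of_le W (iInf_le_of_le inferInstance (iInf_le_of_le m'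
      (iInf_le_of_le ⟨h2, h6⟩ (le_refl _))))
  · have h6 : piNumber m' = k := (pi_spec h2 k).2 ⟨h3, h5⟩
    refine (min_le_left _ _).trans (le_trans ?_ hWc)
    unfold o
    exact iInf_le_of_le W (iInf_le_of_le inferInstance (iInf_le_of_le m'
      (iInf_le_of_le ⟨h2, h6⟩ (le_refl _))))

end Pool.Agent.RGP
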