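import Pool.Agent.RGP.Basic

set_option autoImplicit false

/-!
# RGP: switches
-/

open scoped Classical

noncomputable section

namespace Pool.Agent.RGP

theorem ind_comm {V : Type} (a b u v : V) : ind a b u v = ind a b v u := by
  unfold ind
  congr 1
  apply propext
  tauto

theorem ind_diag {V : Type} {a b : V} (hab : a ≠ b) (v : V) : ind a b v v = 0 := by
  unfold ind
  rw [if_neg]
  rintro (⟨h1, h2⟩ | ⟨h1, h2⟩)
  · exact hab (h1.symm.trans h2)
  · exact hab (h2.symm.trans h1)

theorem ind_le_one {V : Type} (a b u v : V) : ind a b u v ≤ 1 := by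
  unfold ind; split_ifs <;> omega

theorem ind_sum {V : Type} [Fintype V] {a b : V} (hab : a ≠ b) (u : V) :
    ∑ v, ind a b u v = (if u = a then 1 else 0) + (if u = b then 1 else 0) := by
  by_cases hu : u = a
  · have h1 : ∀ v ∈ Finset.univ, ind a b u v = if v = b then 1 else 0 := by
      intro v _
      unfold ind
      congr 1
      apply propext
      constructor
      · rintro (⟨_, h2⟩ | ⟨h1, _⟩)
        · exact h2
        · exact absurd (hu.symm.trans h1) hab
      · intro h2; exact Or.inl ⟨hu, h2⟩
    rw [Finset.sum_congr rfl h1, Finset.sum_ite_eq']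
    have : u ≠ b := fun h => hab (hu.symm.trans h)
    simp [hu, hab]
  · by_cases hu' : u = b
    · have h1 : ∀ v ∈ Finset.univ, ind a b u v = if v = a then 1 else 0 := by
        intro v _
        unfold ind
        congr 1
        apply propext
        constructor
        · rintro (⟨h1, _⟩ | ⟨_, h2⟩)
          · exact absurd h1 hu
          · exact h2
        · intro h2; exact Or.inr ⟨hu', h2⟩
      rw [Finset.sum_congr rfl h1, Finset.sum_ite_eq']
      simp [hu', hab.symm]
    · have h1 : ∀ v ∈ Finset.univ, ind a b u v = 0 := by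
        intro v _
        unfold ind
        rw [if_neg]
        rintro (⟨h1, _⟩ | ⟨h1, _⟩)
        · exact hu h1
        · exact hu' h1
      rw [Finset.sum_congr rfl h1]
      simp [hu, hu']

/-- A pair contributes at most one to a cut. -/
theorem cut_ind_le {V : Type} [Fintype V] {a b : V} (hab : a ≠ b) (X : Finset V) :
    cut (ind a b) X ≤ 1 := by
  rw [cut_eq_sum]
  have h0 : ∀ u ∈ Finset.univ, ∑ v, (if (u ∈ X ∧ v ∉ X) then ind a b u v else 0)
      ≤ if u ∈ X then (if u = a ∧ b ∉ X then 1 else 0) + (if u = b ∧ a ∉ X then 1 else 0)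
        else 0 := by
    intro u _
    by_cases hu : u ∈ X
    · rw [if_pos hu]
      have h1 : ∀ v ∈ Finset.univ, (if (u ∈ X ∧ v ∉ X) then ind a b u v else 0)
          ≤ (if v = b then (if u = a ∧ b ∉ X then 1 else 0) else 0)
            + (if v = a then (if u = b ∧ a ∉ X then 1 else 0) else 0) := by
        intro v _
        by_cases hv : v ∈ X
        · simp [hv]
        · unfold ind
          by_cases h1 : u = a ∧ v = b
          · obtain ⟨rfl, rfl⟩ := h1
            simp [hu, hv]
          · by_cases h2 : u = b ∧ v = a
            · obtain ⟨rfl, rfl⟩ := h2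
              simp [hu, hv]
            · simp [h1, h2]
      refine (Finset.sum_le_sum h1).trans ?_
      rw [Finset.sum_add_distrib, Finset.sum_ite_eq', Finset.sum_ite_eq']
      simp
    · simp [hu]
  refine (Finset.sum_le_sum h0).trans ?_
  by_cases ha : a ∈ X
  · by_cases hb : b ∈ X
    · have : ∀ u ∈ Finset.univ, (if u ∈ X then (if u = a ∧ b ∉ X then 1 else 0)
          + (if u = b ∧ a ∉ X then 1 else 0) else 0) = 0 := by
        intro u _
        simp [ha, hb]
      rw [Finset.sum_congr rfl this]; simp
    · have : ∀ u ∈ Finset.univ, (if u ∈ X then (if u = a ∧ b ∉ X then 1 else 0)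
          + (if u = b ∧ a ∉ X then 1 else 0) else 0) = if u = a then 1 else 0 := by
        intro u _
        by_cases hu : u = a
        · subst hu; simp [ha, hb]
        · simp [ha, hu]
      rw [Finset.sum_congr rfl this]; simp
  · by_cases hb : b ∈ X
    · have : ∀ u ∈ Finset.univ, (if u ∈ X then (if u = a ∧ b ∉ X then 1 else 0)
          + (if u = b ∧ a ∉ X then 1 else 0) else 0) = if u = b then 1 else 0 := by
        intro u _
        by_cases hu : u = b
        · subst hu; simp [ha, hb]
        · simp [hb, hu]
      rw [Finset.sum_congr rfl this]; simp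
    · have : ∀ u ∈ Finset.univ, (if u ∈ X then (if u = a ∧ b ∉ X then 1 else 0)
          + (if u = b ∧ a ∉ X then 1 else 0) else 0) = 0 := by
        intro u _
        by_cases hu : u ∈ X
        · have h1 : u ≠ a := fun h => ha (h ▸ hu)
          have h2 : u ≠ b := fun h => hb (h ▸ hu)
          simp [h1, h2]
        · simp [hu]
      rw [Finset.sum_congr rfl this]; simp

theorem cut_add {V : Type} [Fintype V] (m n : V → V → ℕ) (X : Finset V) :
    cut (fun u v => m u v + n u v) X = cut m X + cut n X := by
  unfold cut
  rw [← Finset.sum_add_distrib]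
  apply Finset.sum_congr rfl
  intro u _
  rw [Finset.sum_add_distrib]

/-- The switch: the edges `ac`, `bd` are replaced by `ab`, `cd`. -/
def sw {V : Type} (m : V → V → ℕ) (a b c d : V) (u v : V) : ℕ :=
  m u v + ind a b u v + ind c d u v - ind a c u v - ind b d u v

theorem sw_add {V : Type} {m : V → V → ℕ} (hs : ∀ u v, m u v = m v u) {a b c d : V}
    (hbc : b ≠ c) (had : a ≠ d) (hac : 1 ≤ m a c) (hbd : 1 ≤ m b d)
    (hab : a ≠ b) (u v : V) :
    sw m a b c d u v + ind a c u v + ind b d u v = m u v + ind a b u v + ind c d u v := by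
  have h : ind a c u v + ind b d u v ≤ m u v + ind a b u v + ind c d u v := by
    have h1 : ind a c u v + ind b d u v ≤ m u v := by
      unfold ind
      by_cases h1 : (u = a ∧ v = c) ∨ (u = c ∧ v = a)
      · by_cases h2 : (u = b ∧ v = d) ∨ (u = d ∧ v = b)
        · exfalso
          rcases h1 with ⟨h3, h4⟩ | ⟨h3, h4⟩ <;> rcases h2 with ⟨h5, h6⟩ | ⟨h5, h6⟩
          · exact hab (h3.symm.trans h5)
          · exact had (h3.symm.trans h5)
          · exact hbc (h5.symm.trans h3)
          · exact hab (h4.symm.trans h6)
        · rw [if_pos h1, if_neg h2]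
          rcases h1 with ⟨h3, h4⟩ | ⟨h3, h4⟩
          · rw [h3, h4]; omega
          · rw [h3, h4, hs c a]; omega
      · by_cases h2 : (u = b ∧ v = d) ∨ (u = d ∧ v = b)
        · rw [if_neg h1, if_pos h2]
          rcases h2 with ⟨h3, h4⟩ | ⟨h3, h4⟩
          · rw [h3, h4]; omega
          · rw [h3, h4, hs d b]; omega
        · rw [if_neg h1, if_neg h2]; omega
    omega
  unfold sw
  omega

theorem sw_rgraph {V : Type} [Fintype V] {r : ℕ} {m : V → V → ℕ} (h : IsRGraph r m)
    {a b c d : V} (hab : a ≠ b) (hac' : a ≠ c) (hbc : b ≠ c) (had : a ≠ d) (hbd' : b ≠ d)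
    (hcd : c ≠ d) (hac : 1 ≤ m a c) (hbd : 1 ≤ m b d)
    (hcuts : ∀ X : Finset V, Odd X.card → 3 ≤ X.card → X.card + 3 ≤ Fintype.card V →
      r + 2 ≤ cut m X) (hr : 1 ≤ r) : IsRGraph r (sw m a b c d) := by
  have key := sw_add h.2.1 hbc had hac hbd hab
  have hreg : ∀ v, ∑ w, sw m a b c d v w = r := by
    intro v
    have h1 : ∑ w, (sw m a b c d v w + ind a c v w + ind b d v w)
        = ∑ w, (m v w + ind a b v w + ind c d v w) :=
      Finset.sum_congr rfl (fun w _ => key v w)
    rw [Finset.sum_add_distrib, Finset.sum_add_distrib, Finset.sum_add_distrib,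
      Finset.sum_add_distrib, h.2.2.2.1 v, ind_sum hac', ind_sum hbd', ind_sum hab,
      ind_sum hcd] at h1
    omega
  have hsym : ∀ u v, sw m a b c d u v = sw m a b c d v u := by
    intro u v
    unfold sw
    rw [h.2.1 u v, ind_comm a b, ind_comm c d, ind_comm a c, ind_comm b d]
  refine ⟨h.1, hsym, ?_, hreg, ?_⟩
  · intro v
    have := key v v
    rw [ind_diag hab, ind_diag hcd, ind_diag hac', ind_diag hbd', h.2.2.1] at this
    omega
  · intro X hX
    have heven := h.even_card hr
    by_cases h3 : 3 ≤ X.card ∧ X.card + 3 ≤ Fintype.card V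
    · have h4 := hcuts X hX h3.1 h3.2
      have h5 : cut (fun u v => (fun u v => sw m a b c d u v + ind a c u v) u v + ind b d u v) X
          = cut (fun u v => (fun u v => m u v + ind a b u v) u v + ind c d u v) X := by
        congr 1
        funext u v
        exact key u v
      rw [cut_add, cut_add, cut_add, cut_add] at h5
      have h6 := cut_ind_le hac' X
      have h7 := cut_ind_le hbd' X
      have h8 : cut (sw m a b c d) X + cut (ind a c) X + cut (ind b d) X
          = cut m X + cut (ind a b) X + cut (ind c d) X := h5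
      omega
    · -- trivial cuts
      have h4 : X.card = 1 ∨ X.card + 1 = Fintype.card V := by
        have h5 : X.card ≤ Fintype.card V := Finset.card_le_univ X
        obtain ⟨t, ht⟩ := hX
        obtain ⟨w, hw⟩ := heven
        omega
      rcases h4 with h4 | h4
      · obtain ⟨x, rfl⟩ := Finset.card_eq_one.1 h4
        have h5 := cut_add_inner hreg {x}
        have h6 : ∑ u ∈ ({x} : Finset V), ∑ v ∈ ({x} : Finset V), sw m a b c d u v = 0 := by
          rw [Finset.sum_singleton, Finset.sum_singleton]
          have := key x x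
          rw [ind_diag hab, ind_diag hcd, ind_diag hac', ind_diag hbd', h.2.2.1] at this
          omega
        rw [h6, Finset.card_singleton] at h5
        omega
      · have h5 : Xᶜ.card = 1 := by rw [Finset.card_compl]; omega
        obtain ⟨x, hx⟩ := Finset.card_eq_one.1 h5
        rw [← cut_compl hsym, hx]
        have h5 := cut_add_inner hreg {x}
        have h6 : ∑ u ∈ ({x} : Finset V), ∑ v ∈ ({x} : Finset V), sw m a b c d u v = 0 := by
          rw [Finset.sum_singleton, Finset.sum_singleton]
          have := key x x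
          rw [ind_diag hab, ind_diag hcd, ind_diag hac', ind_diag hbd', h.2.2.1] at this
          omega
        rw [h6, Finset.card_singleton] at h5
        omega

/-- A switch changes the number of matchings by at most two. -/
theorem sw_matchings {V : Type} {m : V → V → ℕ} (hs : ∀ u v, m u v = m v u) {a b c d : V}
    (hab : a ≠ b) (hbc : b ≠ c) (had : a ≠ d) (hac : 1 ≤ m a c) (hbd : 1 ≤ m b d) {k : ℕ}
    (h : HasMatchings (sw m a b c d) (k + 2)) : HasMatchings m k := by
  have key := sw_add hs hbc had hac hbd hab
  exact HasMatchings.remove_two a b c d h (fun u v => by have := key u v; omega)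

end Pool.Agent.RGP
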